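import Mathlib

/-!
MP_0f9677, Q1 and Q2.  Product of the maximum average degrees of a graph and its complement:
`f(n) = (x-1)(n(n-1)-x(x-1))/n`, `x` the least positive integer with `x(3x-1) ≥ n(n-1)`,
and the clique-type graph `G_{n,x}` attains it.
-/

namespace Pool.Agent.Results.MP_0f9677_co.MadProduct

open Finset SimpleGraph

/-- average degree `2|E(H)|/|V(H)|` of a subgraph -/
noncomputable def avgDeg {V : Type*} {G : SimpleGraph V} (H : G.Subgraph) : ℝ :=
  2 * (H.edgeSet.ncard : ℝ) / (H.verts.ncard : ℝ)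

/-- maximum average degree, over all subgraphs with at least one vertex -/
noncomputable def Mad {V : Type*} (G : SimpleGraph V) : ℝ :=
  sSup {d | ∃ H : G.Subgraph, H.verts.Nonempty ∧ d = avgDeg H}

/-- clique-type graph `G_{n,x}`: a clique on the first `x` vertices and `n - x` isolated vertices -/
def cliqueType (n x : ℕ) : SimpleGraph (Fin n) where
  Adj i j := i ≠ j ∧ (i : ℕ) < x ∧ (j : ℕ) < x
  symm := ⟨fun _ _ h => ⟨h.1.symm, h.2.2, h.2.1⟩⟩
  loopless := ⟨fun _ h => h.1 rfl⟩

/-- the optimal clique size: the least positive integer `x` with `x(3x-1) ≥ n(n-1)` -/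
noncomputable def xopt (n : ℕ) : ℕ := sInf {x : ℕ | 1 ≤ x ∧ n * (n - 1) ≤ x * (3 * x - 1)}

/-! ### Counting -/

section count

variable {n : ℕ}

open Classical in
/-- number of ordered adjacent pairs -/
noncomputable def pc {G : SimpleGraph (Fin n)} (H : G.Subgraph) : ℕ :=
  (univ.filter fun p : Fin n × Fin n => H.Adj p.1 p.2).card

lemma two_mul_ncard {G : SimpleGraph (Fin n)} (H : G.Subgraph) :
    2 * H.edgeSet.ncard = pc H := by
  classical
  unfold pc
  rw [← Subgraph.edgeSet_spanningCoe, Set.ncard_eq_toFinset_card']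
  have h := SimpleGraph.two_mul_card_edgeFinset (G := H.spanningCoe)
  unfold SimpleGraph.edgeFinset at h
  rw [h]
  rfl

lemma avgDeg_eq {G : SimpleGraph (Fin n)} (H : G.Subgraph) :
    avgDeg H = (pc H : ℝ) / (H.verts.ncard : ℝ) := by
  unfold avgDeg
  rw [← two_mul_ncard]
  push_cast
  rfl

lemma avgDeg_nonneg {G : SimpleGraph (Fin n)} (H : G.Subgraph) : 0 ≤ avgDeg H := by
  unfold avgDeg; positivity

lemma Mad_set_finite (G : SimpleGraph (Fin n)) :
    {d | ∃ H : G.Subgraph, H.verts.Nonempty ∧ d = avgDeg H}.Finite := by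
  refine (Set.finite_range (fun H : G.Subgraph => avgDeg H)).subset ?_
  rintro d ⟨H, _, rfl⟩
  exact ⟨H, rfl⟩

lemma le_Mad {G : SimpleGraph (Fin n)} (H : G.Subgraph) (hH : H.verts.Nonempty) :
    avgDeg H ≤ Mad G :=
  le_csSup (Mad_set_finite G).bddAbove ⟨H, hH, rfl⟩

lemma exists_Mad (hn : 1 ≤ n) (G : SimpleGraph (Fin n)) :
    ∃ H : G.Subgraph, H.verts.Nonempty ∧ Mad G = avgDeg H := by
  have hne : {d | ∃ H : G.Subgraph, H.verts.Nonempty ∧ d = avgDeg H}.Nonempty :=
    ⟨_, ⊤, ⟨⟨0, hn⟩, trivial⟩, rfl⟩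
  exact hne.csSup_mem (Mad_set_finite G)

lemma counts {G : SimpleGraph (Fin n)} (H : G.Subgraph) (K : Gᶜ.Subgraph) :
    ∃ c : ℕ, H.verts.ncard + K.verts.ncard ≤ n + c ∧
      pc H + H.verts.ncard ≤ H.verts.ncard * H.verts.ncard ∧
      pc K + K.verts.ncard ≤ K.verts.ncard * K.verts.ncard ∧
      H.verts.ncard ≤ n ∧ K.verts.ncard ≤ n ∧ 
      pc H + pc K + c * c + H.verts.ncard + K.verts.ncard ≤
        H.verts.ncard * H.verts.ncard + K.verts.ncard * K.verts.ncard + c := by
  classical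
  set S : Finset (Fin n) := H.verts.toFinset with hS
  set T : Finset (Fin n) := K.verts.toFinset with hT
  have hSc : H.verts.ncard = S.card := Set.ncard_eq_toFinset_card' _
  have hTc : K.verts.ncard = T.card := Set.ncard_eq_toFinset_card' _
  set P : Finset (Fin n × Fin n) := univ.filter fun p : Fin n × Fin n => H.Adj p.1 p.2 with hP
  set Q : Finset (Fin n × Fin n) := univ.filter fun p : Fin n × Fin n => K.Adj p.1 p.2 with hQ
  have hPS : P ⊆ S.offDiag := by
    intro p hp
    rw [hP, mem_filter] at hp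
    rw [mem_offDiag, hS, Set.mem_toFinset, Set.mem_toFinset]
    exact ⟨H.edge_vert hp.2, H.edge_vert hp.2.symm, hp.2.ne⟩
  have hQT : Q ⊆ T.offDiag := by
    intro p hp
    rw [hQ, mem_filter] at hp
    rw [mem_offDiag, hT, Set.mem_toFinset, Set.mem_toFinset]
    exact ⟨K.edge_vert hp.2, K.edge_vert hp.2.symm, hp.2.ne⟩
  have hdisj : Disjoint P Q := by
    rw [Finset.disjoint_left]
    intro p hp hq
    rw [hP, mem_filter] at hp
    rw [hQ, mem_filter] at hq
    have h1 : G.Adj p.1 p.2 := hp.2.adj_sub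
    have h2 : Gᶜ.Adj p.1 p.2 := hq.2.adj_sub
    rw [SimpleGraph.compl_adj] at h2
    exact h2.2 h1
  have hoff : ∀ U : Finset (Fin n), U.offDiag.card + U.card = U.card * U.card := by
    intro U
    rw [offDiag_card]
    have : U.card ≤ U.card * U.card := Nat.le_mul_self _
    omega
  have h1 : pc H ≤ S.offDiag.card := Finset.card_le_card hPS
  have h2 : pc K ≤ T.offDiag.card := Finset.card_le_card hQT
  have h3 : pc H + pc K = (P ∪ Q).card := (Finset.card_union_of_disjoint hdisj).symm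
  have h4 : (P ∪ Q).card ≤ (S.offDiag ∪ T.offDiag).card :=
    Finset.card_le_card (Finset.union_subset_union hPS hQT)
  have h5 := Finset.card_union_add_card_inter S.offDiag T.offDiag
  have h6 : S.offDiag ∩ T.offDiag = (S ∩ T).offDiag := (offDiag_inter S T).symm
  rw [h6] at h5
  have h7 := Finset.card_union_add_card_inter S T
  have h8 : (S ∪ T).card ≤ n := by
    have := Finset.card_le_univ (S ∪ T)
    rwa [Fintype.card_fin] at this
  have h9 : S.card ≤ n := by
    have := Finset.card_le_univ S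
    rwa [Fintype.card_fin] at this
  have h10 : T.card ≤ n := by
    have := Finset.card_le_univ T
    rwa [Fintype.card_fin] at this
  have oS := hoff S
  have oT := hoff T
  have oI := hoff (S ∩ T)
  rw [hSc, hTc]
  refine ⟨(S ∩ T).card, ?_, ?_, ?_, ?_, ?_, ?_⟩ <;> omega

end count

/-! ### The optimisation -/

/-- `n` times the value for the clique of size `x` -/
def Gf (n x : ℝ) : ℝ := (x - 1) * (n * (n - 1) - x * (x - 1))

lemma conv {K M L a b b1 : ℝ} (hab : a ≤ b) (hb : b ≤ b1) (h1 : (K + M * a) ^ 2 ≤ L * a)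
    (h2 : (K + M * b1) ^ 2 ≤ L * b1) : (K + M * b) ^ 2 ≤ L * b := by
  rcases eq_or_lt_of_le (hab.trans hb) with h | h
  · have : b = a := le_antisymm (h ▸ hb) hab
    rw [this]; exact h1
  · by_contra hc
    push Not at hc
    have e : (b1 - a) * ((K + M * b) ^ 2 - L * b) = (b1 - b) * ((K + M * a) ^ 2 - L * a) +
        (b - a) * ((K + M * b1) ^ 2 - L * b1) - M ^ 2 * ((b - a) * (b1 - b) * (b1 - a)) := by ring
    have e1 : (b1 - b) * ((K + M * a) ^ 2 - L * a) ≤ 0 :=
      mul_nonpos_of_nonneg_of_nonpos (by linarith) (by linarith)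
    have e2 : (b - a) * ((K + M * b1) ^ 2 - L * b1) ≤ 0 :=
      mul_nonpos_of_nonneg_of_nonpos (by linarith) (by linarith)
    have e3 : 0 ≤ M ^ 2 * ((b - a) * (b1 - b) * (b1 - a)) := by
      have : 0 ≤ (b - a) * (b1 - b) * (b1 - a) :=
        mul_nonneg (mul_nonneg (by linarith) (by linarith)) (by linarith)
      positivity
    have e4 : 0 < (b1 - a) * ((K + M * b) ^ 2 - L * b) := mul_pos (by linarith) (by linarith)
    linarith

lemma x0_bounds (n : ℕ) (hn : 3 ≤ n) : ∃ x : ℕ, 1 ≤ x ∧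
    (n : ℝ) * ((59 * n - 65) / 100) ^ 2 ≤ Gf n x ∧
    ∀ a : ℝ, 1 ≤ a → (n : ℝ) * (n - 1) ≤ 2 * (a * (a - 1)) →
      (n : ℝ) ^ 2 * (n - 1) ^ 2 ≤ 4 * a * Gf n x := by
  rcases Nat.even_or_odd' n with ⟨k, rfl | rfl⟩
  · have hk : (2 : ℝ) ≤ k := by exact_mod_cast (by omega : 2 ≤ k)
    refine ⟨k + 1, by omega, ?_, ?_⟩
    · unfold Gf
      push_cast
      have : 0 ≤ (k : ℝ) * (2152 * k ^ 2 + 680 * k - 8450) :=
        mul_nonneg (by linarith) (by nlinarith)
      nlinarith
    · intro a ha h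
      unfold Gf
      push_cast at h ⊢
      have h' : (k : ℝ) * (2 * k - 1) ≤ a * (a - 1) := by nlinarith
      have key : (2 * (k : ℝ) - 1) ^ 2 ≤ 3 * a * (k - 1) := by
        by_contra hc
        push Not at hc
        set u : ℝ := 3 * a * (k - 1) with hu
        set v : ℝ := (2 * (k : ℝ) - 1) ^ 2 with hv
        set w : ℝ := 3 * ((k : ℝ) - 1) with hw
        have hwu : w ≤ u := by rw [hw, hu]; nlinarith
        have hw0 : 0 ≤ w := by rw [hw]; linarith
        have e1 : u * (u - w) < v * (v - w) := by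
          have : 0 < (v - u) * (v + u - w) := by
            apply mul_pos <;> linarith
          nlinarith
        have e2 : u * (u - w) = 9 * ((k : ℝ) - 1) ^ 2 * (a * (a - 1)) := by
          rw [hu, hw]; ring
        have e3 : 9 * ((k : ℝ) - 1) ^ 2 * ((k : ℝ) * (2 * k - 1)) ≤
            9 * ((k : ℝ) - 1) ^ 2 * (a * (a - 1)) :=
          mul_le_mul_of_nonneg_left h' (by positivity)
        have e4 : 9 * ((k : ℝ) - 1) ^ 2 * ((k : ℝ) * (2 * k - 1)) - v * (v - w) =
            (2 * (k : ℝ) - 1) * ((k - 2) * (k ^ 2 + 2 * k - 2)) := by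
          rw [hv, hw]; ring
        have e5 : 0 ≤ (2 * (k : ℝ) - 1) * ((k - 2) * (k ^ 2 + 2 * k - 2)) := by
          apply mul_nonneg (by linarith)
          apply mul_nonneg (by linarith)
          nlinarith
        linarith
      have hk2 : 0 ≤ 4 * (k : ℝ) ^ 2 := by positivity
      have := mul_le_mul_of_nonneg_left key hk2
      nlinarith
  · have hk : (1 : ℝ) ≤ k := by exact_mod_cast (by omega : 1 ≤ k)
    refine ⟨k + 1, by omega, ?_, ?_⟩
    · unfold Gf
      push_cast
      have h1 : 0 ≤ (k : ℝ) ^ 2 * (k - 1) := mul_nonneg (by positivity) (by linarith)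
      have h2 : 0 ≤ (k : ℝ) * (k - 1) := mul_nonneg (by linarith) (by linarith)
      nlinarith
    · intro a ha h
      unfold Gf
      push_cast at h ⊢
      have h' : (k : ℝ) * (2 * k + 1) ≤ a * (a - 1) := by nlinarith
      have key : (2 * (k : ℝ) + 1) ^ 2 ≤ a * (3 * k + 1) := by
        by_contra hc
        push Not at hc
        set u : ℝ := a * (3 * k + 1) with hu
        set v : ℝ := (2 * (k : ℝ) + 1) ^ 2 with hv
        set w : ℝ := 3 * (k : ℝ) + 1 with hw
        have hwu : w ≤ u := by rw [hu]; nlinarith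
        have hw0 : 0 ≤ w := by rw [hw]; linarith
        have e1 : u * (u - w) < v * (v - w) := by
          have : 0 < (v - u) * (v + u - w) := by
            apply mul_pos <;> linarith
          nlinarith
        have e2 : u * (u - w) = (3 * (k : ℝ) + 1) ^ 2 * (a * (a - 1)) := by
          rw [hu, hw]; ring
        have e3 : (3 * (k : ℝ) + 1) ^ 2 * ((k : ℝ) * (2 * k + 1)) ≤
            (3 * (k : ℝ) + 1) ^ 2 * (a * (a - 1)) :=
          mul_le_mul_of_nonneg_left h' (by positivity)
        have e4 : (3 * (k : ℝ) + 1) ^ 2 * ((k : ℝ) * (2 * k + 1)) - v * (v - w) =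
            (k : ℝ) ^ 3 * (2 * k + 1) := by
          rw [hv, hw]; ring
        have e5 : 0 ≤ (k : ℝ) ^ 3 * (2 * k + 1) := by positivity
        linarith
      have hk2 : 0 ≤ 4 * (k : ℝ) ^ 2 := by positivity
      have := mul_le_mul_of_nonneg_left key hk2
      nlinarith

/-- the core inequality, for `a ≤ b` -/
theorem core (n a b c : ℕ) (P Q : ℝ) (hn : 3 ≤ n) (ha : 1 ≤ a) (hab : a ≤ b) (hbn : b ≤ n)
    (hc : a + b ≤ n + c) (hP0 : 0 ≤ P) (hQ0 : 0 ≤ Q) (hP : P ≤ (a : ℝ) * (a - 1))
    (hQ : Q ≤ (b : ℝ) * (b - 1))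
    (hPQ : P + Q + (c : ℝ) * (c - 1) ≤ (a : ℝ) * (a - 1) + (b : ℝ) * (b - 1)) :
    ∃ x : ℕ, 1 ≤ x ∧ (n : ℝ) * (P * Q) ≤ (a : ℝ) * b * Gf n x := by
  have hn' : (3 : ℝ) ≤ n := by exact_mod_cast hn
  have ha' : (1 : ℝ) ≤ a := by exact_mod_cast ha
  have hab' : (a : ℝ) ≤ b := by exact_mod_cast hab
  have hbn' : (b : ℝ) ≤ n := by exact_mod_cast hbn
  have hA0 : 0 ≤ (a : ℝ) * (a - 1) := mul_nonneg (by linarith) (by linarith)
  by_cases h0 : a + b ≤ n
  · -- disjoint supports possible
    refine ⟨a, ha, ?_⟩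
    have h0' : (a : ℝ) + b ≤ n := by exact_mod_cast h0
    have h1 : P * Q ≤ ((a : ℝ) * (a - 1)) * ((b : ℝ) * (b - 1)) :=
      mul_le_mul hP hQ hQ0 hA0
    have h2 : (n : ℝ) * (b - 1) ≤ n * (n - 1) - a * (a - 1) := by nlinarith
    have h3 : (n : ℝ) * (P * Q) ≤ n * (((a : ℝ) * (a - 1)) * ((b : ℝ) * (b - 1))) :=
      mul_le_mul_of_nonneg_left h1 (by linarith)
    have h4 : (a : ℝ) * b * (a - 1) * ((n : ℝ) * (b - 1)) ≤
        (a : ℝ) * b * (a - 1) * (n * (n - 1) - a * (a - 1)) :=
      mul_le_mul_of_nonneg_left h2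
        (mul_nonneg (mul_nonneg (by linarith) (by linarith)) (by linarith))
    have h5 : (n : ℝ) * (((a : ℝ) * (a - 1)) * ((b : ℝ) * (b - 1))) =
        (a : ℝ) * b * (a - 1) * ((n : ℝ) * (b - 1)) := by ring
    have h6 : (a : ℝ) * b * Gf n a = (a : ℝ) * b * (a - 1) * (n * (n - 1) - a * (a - 1)) := by
      unfold Gf; ring
    rw [h6]
    linarith [h3, h4, h5]
  · push Not at h0
    -- `m = n - a`
    obtain ⟨m, hm⟩ : ∃ m : ℝ, m = n - a := ⟨_, rfl⟩
    have hm0 : 0 ≤ m := by rw [hm]; linarith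
    have hbm : m + 1 ≤ b := by
      have : (n : ℝ) + 1 ≤ a + b := by exact_mod_cast h0
      rw [hm]; linarith
    have hcm : (b : ℝ) - m ≤ c := by
      have : (a : ℝ) + b ≤ n + c := by exact_mod_cast hc
      rw [hm]; linarith
    have hcc : ((b : ℝ) - m) * (b - m - 1) ≤ (c : ℝ) * (c - 1) := by nlinarith
    obtain ⟨W, hW⟩ : ∃ W : ℝ, W = m * (2 * b - m - 1) := ⟨_, rfl⟩
    have hW0 : 0 ≤ W := by rw [hW]; exact mul_nonneg hm0 (by linarith)
    have hR : P + Q ≤ (a : ℝ) * (a - 1) + W := by rw [hW]; linarith [hcc, hPQ]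
    have hG : Gf n a = (a - 1) * (m * (2 * n - m - 1)) := by
      unfold Gf
      have : (a : ℝ) = n - m := by rw [hm]; ring
      rw [this]; ring
    by_cases hi : (a : ℝ) * (a - 1) ≤ W
    · -- case (i)
      refine ⟨a, ha, ?_⟩
      have h1 : P * Q ≤ ((a : ℝ) * (a - 1)) * W := by
        have h2 : P * Q ≤ P * ((a : ℝ) * (a - 1) + W - P) :=
          mul_le_mul_of_nonneg_left (by linarith) hP0
        have h3 : 0 ≤ ((a : ℝ) * (a - 1) - P) * (W - P) :=
          mul_nonneg (by linarith) (by linarith)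
        nlinarith
      have h4 : (n : ℝ) * (2 * b - m - 1) ≤ b * (2 * n - m - 1) := by
        linarith [mul_le_mul_of_nonneg_right hbn' (by linarith : (0 : ℝ) ≤ m + 1)]
      have h5 : (n : ℝ) * (P * Q) ≤ n * (((a : ℝ) * (a - 1)) * W) :=
        mul_le_mul_of_nonneg_left h1 (by linarith)
      have h6 : (a : ℝ) * (a - 1) * m * ((n : ℝ) * (2 * b - m - 1)) ≤
          (a : ℝ) * (a - 1) * m * (b * (2 * n - m - 1)) :=
        mul_le_mul_of_nonneg_left h4 (mul_nonneg hA0 hm0)
      rw [hG]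
      rw [hW] at h5
      linarith [h5, h6]
    · push Not at hi
      -- case (ii)
      obtain ⟨x0, hx0, hb1, hb2⟩ := x0_bounds n hn
      obtain ⟨K, hK⟩ : ∃ K : ℝ, K = (a : ℝ) * (a - 1) - m * (m + 1) := ⟨_, rfl⟩
      have hRK : (a : ℝ) * (a - 1) + W = K + 2 * m * b := by rw [hW, hK]; ring
      have hPQ4 : 4 * (P * Q) ≤ (K + 2 * m * b) ^ 2 := by
        rw [← hRK]
        have h1 : 4 * (P * Q) ≤ (P + Q) ^ 2 := by nlinarith [sq_nonneg (P - Q)]
        have h2 : (P + Q) ^ 2 ≤ ((a : ℝ) * (a - 1) + W) ^ 2 :=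
          pow_le_pow_left₀ (by linarith) hR 2
        linarith
      -- `a > m`
      have ham : m ≤ a := by
        by_contra hc'
        push Not at hc'
        have : (a : ℝ) * (a - 1) ≤ W := by
          rw [hW]
          have : m * (m + 1) ≤ m * (2 * b - m - 1) :=
            mul_le_mul_of_nonneg_left (by linarith) hm0
          nlinarith
        linarith
      have han : (a : ℝ) + m = n := by rw [hm]; ring
      -- endpoint `b = a`
      have hend1 : (n : ℝ) * (K + 2 * m * a) ^ 2 ≤ 4 * a * a * Gf n x0 := by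
        have e1 : K + 2 * m * a = -2 * (a : ℝ) ^ 2 + 4 * n * a - n * (n + 1) := by
          rw [hK, hm]; ring
        have e2 : 0 ≤ K + 2 * m * a := by
          rw [hK]
          have : 0 ≤ m * (2 * a - m - 1) := by
            by_cases hm1 : m ≤ 2 * a - 1
            · exact mul_nonneg hm0 (by linarith)
            · push Not at hm1
              have : (a : ℝ) < 1 := by linarith
              linarith
          nlinarith
        have e3 : K + 2 * m * a ≤ 2 * a * ((59 * n - 65) / 100) := by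
          rw [e1]
          nlinarith [sq_nonneg ((a : ℝ) - (141 * n + 65) / 200)]
        have e4 : (K + 2 * m * a) ^ 2 ≤ (2 * a * ((59 * n - 65) / 100)) ^ 2 :=
          pow_le_pow_left₀ e2 e3 2
        have e5 : (n : ℝ) * (K + 2 * m * a) ^ 2 ≤
            n * (2 * a * ((59 * n - 65) / 100)) ^ 2 :=
          mul_le_mul_of_nonneg_left e4 (by linarith)
        have e6 : 4 * (a : ℝ) * a * (n * ((59 * n - 65) / 100) ^ 2) ≤ 4 * a * a * Gf n x0 :=
          mul_le_mul_of_nonneg_left hb1 (by positivity)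
        linarith [e5, e6]
      by_cases hA : (n : ℝ) * (n - 1) ≤ 2 * ((a : ℝ) * (a - 1))
      · -- (ii-A)
        refine ⟨x0, hx0, ?_⟩
        have hend2 : (n : ℝ) * (K + 2 * m * n) ^ 2 ≤ 4 * a * n * Gf n x0 := by
          have e1 : K + 2 * m * n = n * (n - 1) := by rw [hK, hm]; ring
          rw [e1]
          have := mul_le_mul_of_nonneg_left (hb2 a ha' hA) (by linarith : (0 : ℝ) ≤ n)
          linarith
        have hcv := conv (K := K) (M := 2 * m) (L := 4 * a * Gf n x0 / n) (a := a) (b := b)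
          (b1 := n) hab' hbn' (by
            rw [div_mul_eq_mul_div, le_div_iff₀ (by linarith)]
            linarith [hend1]) (by
            rw [div_mul_eq_mul_div, le_div_iff₀ (by linarith)]
            linarith [hend2])
        rw [div_mul_eq_mul_div, le_div_iff₀ (by linarith)] at hcv
        have hfin := mul_le_mul_of_nonneg_left hPQ4 (by linarith : (0 : ℝ) ≤ n)
        linarith [hfin, hcv]
      · -- (ii-B)
        push Not at hA
        have hmpos : 0 < m := by
          rcases eq_or_lt_of_le hm0 with h | h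
          · exfalso
            have : (a : ℝ) = n := by linarith
            rw [this] at hA
            have : 0 ≤ (n : ℝ) * (n - 1) := mul_nonneg (by linarith) (by linarith)
            linarith
          · exact h
        obtain ⟨b1, hb1e⟩ : ∃ b1 : ℝ, m * (2 * b1 - m - 1) = (a : ℝ) * (a - 1) := by
          refine ⟨((a : ℝ) * (a - 1) / m + m + 1) / 2, ?_⟩
          field_simp
          ring
        have hbb1 : (b : ℝ) ≤ b1 := by
          by_contra hc'
          push Not at hc'
          have : m * (2 * b1 - m - 1) ≤ m * (2 * b - m - 1) :=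
            mul_le_mul_of_nonneg_left (by linarith) hm0
          rw [hb1e, ← hW] at this
          linarith
        have hb1n : b1 ≤ n := by
          by_contra hc'
          push Not at hc'
          have h1 : m * (2 * n - m - 1) ≤ m * (2 * b1 - m - 1) :=
            mul_le_mul_of_nonneg_left (by linarith) hm0
          rw [hb1e] at h1
          have h2 : m * (2 * n - m - 1) = n * (n - 1) - a * (a - 1) := by rw [hm]; ring
          linarith
        have hb1pos : 0 < b1 := by linarith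
        -- value at `b1`
        have hend2 : (n : ℝ) * (K + 2 * m * b1) ^ 2 ≤ 4 * a * b1 * Gf n a := by
          have e1 : K + 2 * m * b1 = 2 * ((a : ℝ) * (a - 1)) := by
            rw [hK]; linarith [hb1e]
          rw [e1, hG]
          have h4 : (n : ℝ) * (2 * b1 - m - 1) ≤ b1 * (2 * n - m - 1) := by
            linarith [mul_le_mul_of_nonneg_right hb1n (by linarith : (0 : ℝ) ≤ m + 1)]
          have h6 : (a : ℝ) * (a - 1) * m * ((n : ℝ) * (2 * b1 - m - 1)) ≤
              (a : ℝ) * (a - 1) * m * (b1 * (2 * n - m - 1)) :=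
            mul_le_mul_of_nonneg_left h4 (mul_nonneg hA0 hm0)
          have h7 : (n : ℝ) * (2 * ((a : ℝ) * (a - 1))) ^ 2 =
              4 * ((a : ℝ) * (a - 1) * m * ((n : ℝ) * (2 * b1 - m - 1))) := by
            have : (a : ℝ) * (a - 1) * m * ((n : ℝ) * (2 * b1 - m - 1)) =
                (a : ℝ) * (a - 1) * n * (m * (2 * b1 - m - 1)) := by ring
            rw [this, hb1e]; ring
          rw [h7]
          linarith [h6]
        -- the better of the two
        obtain ⟨x, hx, hxa, hx0'⟩ : ∃ x : ℕ, 1 ≤ x ∧ Gf n a ≤ Gf n x ∧ Gf n x0 ≤ Gf n x := by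
          rcases le_total (Gf n (a : ℝ)) (Gf n (x0 : ℝ)) with h | h
          · exact ⟨x0, hx0, h, le_refl _⟩
          · exact ⟨a, ha, le_refl _, h⟩
        refine ⟨x, hx, ?_⟩
        have he1 : (n : ℝ) * (K + 2 * m * a) ^ 2 ≤ 4 * a * a * Gf n x :=
          hend1.trans (mul_le_mul_of_nonneg_left hx0' (by positivity))
        have he2 : (n : ℝ) * (K + 2 * m * b1) ^ 2 ≤ 4 * a * b1 * Gf n x :=
          hend2.trans (mul_le_mul_of_nonneg_left hxa (by positivity))
        have hcv := conv (K := K) (M := 2 * m) (L := 4 * a * Gf n x / n) (a := a) (b := b)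
          (b1 := b1) hab' hbb1 (by
            rw [div_mul_eq_mul_div, le_div_iff₀ (by linarith)]
            linarith [he1]) (by
            rw [div_mul_eq_mul_div, le_div_iff₀ (by linarith)]
            linarith [he2])
        rw [div_mul_eq_mul_div, le_div_iff₀ (by linarith)] at hcv
        have hfin := mul_le_mul_of_nonneg_left hPQ4 (by linarith : (0 : ℝ) ≤ n)
        linarith [hfin, hcv]

theorem core' (n a b c p q : ℕ) (hn : 1 ≤ n) (ha : 1 ≤ a) (hb : 1 ≤ b) (han : a ≤ n)
    (hbn : b ≤ n) (hc : a + b ≤ n + c) (hp : 2 * p + a ≤ a * a) (hq : 2 * q + b ≤ b * b)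
    (hpq : 2 * p + 2 * q + c * c + a + b ≤ a * a + b * b + c) :
    ∃ x : ℕ, 1 ≤ x ∧ (n : ℝ) * ((2 * (p : ℝ)) * (2 * q)) ≤ (a : ℝ) * b * Gf n x := by
  by_cases h3 : 3 ≤ n
  · have hpR : (2 * (p : ℝ)) ≤ (a : ℝ) * (a - 1) := by
      have : ((2 * p + a : ℕ) : ℝ) ≤ ((a * a : ℕ) : ℝ) := by exact_mod_cast hp
      push_cast at this; linarith
    have hqR : (2 * (q : ℝ)) ≤ (b : ℝ) * (b - 1) := by
      have : ((2 * q + b : ℕ) : ℝ) ≤ ((b * b : ℕ) : ℝ) := by exact_mod_cast hq
      push_cast at this; linarith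
    have hpqR : (2 * (p : ℝ)) + 2 * q + (c : ℝ) * (c - 1) ≤
        (a : ℝ) * (a - 1) + (b : ℝ) * (b - 1) := by
      have : ((2 * p + 2 * q + c * c + a + b : ℕ) : ℝ) ≤ ((a * a + b * b + c : ℕ) : ℝ) := by
        exact_mod_cast hpq
      push_cast at this; linarith
    rcases le_total a b with h | h
    · exact core n a b c _ _ h3 ha h hbn hc (by positivity) (by positivity) hpR hqR hpqR
    · obtain ⟨x, hx, hx'⟩ := core n b a c (2 * (q : ℝ)) (2 * p) h3 hb h han (by omega)
        (by positivity) (by positivity) hqR hpR (by linarith)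
      exact ⟨x, hx, by linarith⟩
  · refine ⟨1, le_refl _, ?_⟩
    have hz : p = 0 ∨ q = 0 := by
      have hn2 : n ≤ 2 := by omega
      have ha2 : a ≤ 2 := by omega
      have hb2 : b ≤ 2 := by omega
      by_contra hcon
      push Not at hcon
      have hp1 : 1 ≤ p := by omega
      have hq1 : 1 ≤ q := by omega
      have ha' : a = 2 := by
        interval_cases a
        · omega
        · rfl
      have hb' : b = 2 := by
        interval_cases b
        · omega
        · rfl
      subst ha'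
      subst hb'
      have : 2 ≤ c := by omega
      nlinarith
    have hg : Gf n (1 : ℕ) = 0 := by unfold Gf; simp
    rw [hg]
    rcases hz with h | h <;> subst h <;> simp

/-! ### The best clique size -/

lemma xopt_mem (n : ℕ) : xopt n ∈ {x : ℕ | 1 ≤ x ∧ n * (n - 1) ≤ x * (3 * x - 1)} := by
  apply Nat.sInf_mem
  refine ⟨n + 1, by omega, ?_⟩
  apply Nat.mul_le_mul <;> omega

lemma one_le_xopt (n : ℕ) : 1 ≤ xopt n := (xopt_mem n).1

lemma xopt_le (n : ℕ) (hn : 1 ≤ n) : xopt n ≤ n := by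
  apply Nat.sInf_le
  refine ⟨hn, ?_⟩
  apply Nat.mul_le_mul <;> omega

lemma Gf_step (n x : ℝ) : Gf n (x + 1) - Gf n x = n * (n - 1) - x * (3 * x - 1) := by
  unfold Gf; ring

lemma cast_sub (y : ℕ) (hy : 1 ≤ y) : ((y * (3 * y - 1) : ℕ) : ℝ) = (y : ℝ) * (3 * y - 1) := by
  rw [Nat.cast_mul, Nat.cast_sub (by omega)]
  push_cast; ring

lemma cast_sub' (n : ℕ) (hn : 1 ≤ n) : ((n * (n - 1) : ℕ) : ℝ) = (n : ℝ) * (n - 1) := by
  rw [Nat.cast_mul, Nat.cast_sub hn]
  push_cast; ring

lemma Gf_le (n : ℕ) (hn : 1 ≤ n) (x : ℕ) (hx : 1 ≤ x) : Gf n x ≤ Gf n (xopt n) := by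
  rcases le_total x (xopt n) with h | h
  · -- increasing up to `xopt`
    have key : ∀ y : ℕ, x ≤ y → y ≤ xopt n → Gf n x ≤ Gf n y := by
      intro y hxy
      induction y, hxy using Nat.le_induction with
      | base => intro _; exact le_refl _
      | succ y hxy ih =>
        intro hy
        refine (ih (by omega)).trans ?_
        have h1 : ¬ (1 ≤ y ∧ n * (n - 1) ≤ y * (3 * y - 1)) := by
          intro hmem
          have : xopt n ≤ y := Nat.sInf_le hmem
          omega
        have h2 : y * (3 * y - 1) < n * (n - 1) := by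
          by_contra hc
          exact h1 ⟨by omega, by omega⟩
        have h3 : ((y * (3 * y - 1) : ℕ) : ℝ) ≤ ((n * (n - 1) : ℕ) : ℝ) := by
          exact_mod_cast h2.le
        rw [cast_sub y (by omega), cast_sub' n hn] at h3
        have := Gf_step n y
        push_cast
        linarith
    exact key _ h (le_refl _)
  · have key : ∀ y : ℕ, xopt n ≤ y → Gf n y ≤ Gf n (xopt n) := by
      intro y hxy
      induction y, hxy using Nat.le_induction with
      | base => exact le_refl _
      | succ y hxy ih =>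
        refine le_trans ?_ ih
        have h0 := one_le_xopt n
        have h2 : n * (n - 1) ≤ y * (3 * y - 1) :=
          (xopt_mem n).2.trans (Nat.mul_le_mul hxy (by omega))
        have h3 : ((n * (n - 1) : ℕ) : ℝ) ≤ ((y * (3 * y - 1) : ℕ) : ℝ) := by
          exact_mod_cast h2
        rw [cast_sub y (by omega), cast_sub' n hn] at h3
        have := Gf_step n y
        push_cast
        linarith
    exact key x h

lemma Gf_nonneg (n x : ℕ) (hx : 1 ≤ x) (hxn : x ≤ n) : 0 ≤ Gf n x := by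
  have h1 : (1 : ℝ) ≤ x := by exact_mod_cast hx
  have h2 : (x : ℝ) ≤ n := by exact_mod_cast hxn
  unfold Gf
  apply mul_nonneg (by linarith)
  nlinarith

/-- the upper bound -/
lemma upper (n : ℕ) (hn : 1 ≤ n) (G : SimpleGraph (Fin n)) :
    Mad G * Mad Gᶜ ≤ Gf n (xopt n) / n := by
  obtain ⟨H, hH, eH⟩ := exists_Mad hn G
  obtain ⟨K, hK, eK⟩ := exists_Mad hn Gᶜ
  obtain ⟨c, h1, h2, h3, h4, h5, h6⟩ := counts H K
  have ha : 1 ≤ H.verts.ncard := (Set.ncard_pos (Set.toFinite _)).mpr hH
  have hb : 1 ≤ K.verts.ncard := (Set.ncard_pos (Set.toFinite _)).mpr hK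
  rw [← two_mul_ncard] at h2 h3 h6
  rw [← two_mul_ncard] at h6
  obtain ⟨x, hx, hx'⟩ := core' n _ _ c _ _ hn ha hb h4 h5 h1 h2 h3 h6
  have hle := Gf_le n hn x hx
  rw [eH, eK]
  unfold avgDeg
  have haR : (0 : ℝ) < H.verts.ncard := by exact_mod_cast ha
  have hbR : (0 : ℝ) < K.verts.ncard := by exact_mod_cast hb
  have hnR : (0 : ℝ) < n := by exact_mod_cast hn
  rw [div_mul_div_comm, div_le_div_iff₀ (by positivity) hnR]
  have h7 : (H.verts.ncard : ℝ) * K.verts.ncard * Gf n x ≤
      (H.verts.ncard : ℝ) * K.verts.ncard * Gf n (xopt n) :=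
    mul_le_mul_of_nonneg_left hle (by positivity)
  linarith

/-! ### The clique-type graph -/

lemma pc_eq {n : ℕ} {G : SimpleGraph (Fin n)} (H : G.Subgraph) (T : Finset (Fin n × Fin n))
    (h : ∀ p : Fin n × Fin n, H.Adj p.1 p.2 ↔ p ∈ T) : pc H = T.card := by
  classical
  unfold pc
  congr 1
  ext p
  rw [← h]
  simp

lemma clique_lower (n x : ℕ) (hx : 1 ≤ x) (hxn : x ≤ n) : (x : ℝ) - 1 ≤ Mad (cliqueType n x) := by
  classical
  set S : Finset (Fin n) := univ.filter (fun i : Fin n => (i : ℕ) < x) with hS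
  have hSc : S.card = x := by
    rw [hS]
    have : (univ.filter (fun i : Fin n => (i : ℕ) < x)).card = x := by
      rw [Fin.card_filter_val_lt]
      omega
    exact this
  let H : (cliqueType n x).Subgraph := (⊤ : (cliqueType n x).Subgraph).induce (S : Set (Fin n))
  have hv : H.verts = (S : Set (Fin n)) := rfl
  have hne : H.verts.Nonempty := ⟨⟨0, by omega⟩, by
    rw [hv, hS]; simp; omega⟩
  have hadj : ∀ u v, H.Adj u v ↔ (u ∈ S ∧ v ∈ S ∧ u ≠ v) := by
    intro u v
    show (u ∈ (S : Set (Fin n)) ∧ v ∈ (S : Set (Fin n)) ∧ (cliqueType n x).Adj u v) ↔ _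
    rw [hS]
    simp only [Finset.coe_filter, mem_univ, true_and, Set.mem_ofPred_eq, Finset.mem_filter,
      cliqueType]
    tauto
  have hpc : pc H = S.offDiag.card := by
    apply pc_eq
    intro p
    rw [Finset.mem_offDiag, hadj]
  refine le_trans (le_of_eq ?_) (le_Mad H hne)
  rw [avgDeg_eq, hpc, offDiag_card, hv, Set.ncard_coe_finset, hSc]
  have : (x : ℝ) ≠ 0 := by
    have : (0 : ℝ) < x := by exact_mod_cast hx
    exact this.ne'
  rw [Nat.cast_sub (Nat.le_mul_self x)]
  push_cast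
  field_simp

lemma compl_lower (n x : ℕ) (hn : 1 ≤ n) (hxn : x ≤ n) :
    ((n : ℝ) * (n - 1) - x * (x - 1)) / n ≤ Mad (cliqueType n x)ᶜ := by
  classical
  set S : Finset (Fin n) := univ.filter (fun i : Fin n => (i : ℕ) < x) with hS
  have hSc : S.card = x := by
    rw [hS]
    have : (univ.filter (fun i : Fin n => (i : ℕ) < x)).card = x := by
      rw [Fin.card_filter_val_lt]
      omega
    exact this
  let H : ((cliqueType n x)ᶜ).Subgraph := ⊤
  have hv : H.verts = Set.univ := rfl
  have hne : H.verts.Nonempty := ⟨⟨0, by omega⟩, trivial⟩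
  have hpc : pc H = (univ.offDiag \ S.offDiag).card := by
    apply pc_eq
    intro p
    rw [Finset.mem_sdiff, Finset.mem_offDiag, Finset.mem_offDiag]
    show ((cliqueType n x)ᶜ).Adj p.1 p.2 ↔ _
    rw [SimpleGraph.compl_adj, hS]
    simp only [mem_univ, true_and, Finset.mem_filter, cliqueType]
    tauto
  have hsub : S.offDiag ⊆ (univ : Finset (Fin n)).offDiag := offDiag_mono (subset_univ S)
  have hpc' : (pc H : ℝ) = (n : ℝ) * (n - 1) - x * (x - 1) := by
    rw [hpc, Finset.card_sdiff_of_subset hsub, Nat.cast_sub (Finset.card_le_card hsub),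
      offDiag_card, offDiag_card, hSc, Finset.card_univ, Fintype.card_fin,
      Nat.cast_sub (Nat.le_mul_self x), Nat.cast_sub (Nat.le_mul_self n)]
    push_cast
    ring
  refine le_trans (le_of_eq ?_) (le_Mad H hne)
  rw [avgDeg_eq, hpc', hv, Set.ncard_univ, Nat.card_eq_fintype_card, Fintype.card_fin]

/-- **Q1 and Q2.** -/
theorem result (n : ℕ) (hn : 1 ≤ n) :
    IsGreatest {y : ℝ | ∃ G : SimpleGraph (Fin n), y = Mad G * Mad Gᶜ}
      (((xopt n : ℝ) - 1) * (n * (n - 1) - xopt n * (xopt n - 1)) / n) ∧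
    1 ≤ xopt n ∧ xopt n ≤ n ∧
    IsGreatest {y : ℝ | ∃ G : SimpleGraph (Fin n), y = Mad G * Mad Gᶜ}
      (Mad (cliqueType n (xopt n)) * Mad (cliqueType n (xopt n))ᶜ) := by
  have h1 := one_le_xopt n
  have h2 := xopt_le n hn
  have h1R : (1 : ℝ) ≤ xopt n := by exact_mod_cast h1
  have h2R : (xopt n : ℝ) ≤ n := by exact_mod_cast h2
  have hnR : (0 : ℝ) < n := by exact_mod_cast hn
  have hval : ((xopt n : ℝ) - 1) * (n * (n - 1) - xopt n * (xopt n - 1)) / n =
      Gf n (xopt n) / n := rfl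
  have hlow : ((xopt n : ℝ) - 1) * (n * (n - 1) - xopt n * (xopt n - 1)) / n ≤
      Mad (cliqueType n (xopt n)) * Mad (cliqueType n (xopt n))ᶜ := by
    have e1 := clique_lower n (xopt n) h1 h2
    have e2 := compl_lower n (xopt n) hn h2
    have e3 : 0 ≤ ((n : ℝ) * (n - 1) - xopt n * (xopt n - 1)) / n := by
      apply div_nonneg _ hnR.le
      nlinarith
    have := mul_le_mul e1 e2 e3 (by linarith)
    rw [mul_div_assoc]
    exact this
  have heq : Mad (cliqueType n (xopt n)) * Mad (cliqueType n (xopt n))ᶜ =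
      ((xopt n : ℝ) - 1) * (n * (n - 1) - xopt n * (xopt n - 1)) / n :=
    le_antisymm (upper n hn _) hlow
  have hG : IsGreatest {y : ℝ | ∃ G : SimpleGraph (Fin n), y = Mad G * Mad Gᶜ}
      (((xopt n : ℝ) - 1) * (n * (n - 1) - xopt n * (xopt n - 1)) / n) := by
    refine ⟨⟨cliqueType n (xopt n), heq.symm⟩, ?_⟩
    rintro y ⟨G, rfl⟩
    exact upper n hn G
  exact ⟨hG, h1, h2, by rw [heq]; exact hG⟩

end Pool.Agent.Results.MP_0f9677_co.MadProduct
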